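import Pool.Agent.V11316.Del4

set_option autoImplicit false

/-!
# The congruence for sums of products of `q`-Delannoy numbers

`∑_{j<p} [2j+1] q^{-j} D_q(m,j) D_{q⁻¹}(m,j)` modulo `[p]²` in `ℤ[q,q⁻¹]`, for every odd prime `p`.
-/

namespace Pool.Agent.Results.MP_c68aab_nt.DelannoyCongruence

open Finset

noncomputable section

/-- the indeterminate `q` -/
def q : RatFunc ℚ := RatFunc.X

/-- the `q`-integer `[n] = (1 - q^n)/(1 - q)` -/
def qint (n : ℕ) : RatFunc ℚ := (1 - q ^ n) / (1 - q)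

/-- the Gaussian binomial coefficient in base `x`, `∏_{i=1}^k (1 - x^{n-i+1})/(1 - x^i)`;
it is `0` for `k > n` -/
def gauss (x : RatFunc ℚ) (n k : ℕ) : RatFunc ℚ :=
  ∏ i ∈ Icc 1 k, (1 - x ^ (n + 1 - i)) / (1 - x ^ i)

/-- `D_x(m,n) = ∑_{j=0}^n x^{j(j-1)/2} binom(n,j)_x binom(m+n-j,n)_x` -/
def delannoy (x : RatFunc ℚ) (m n : ℕ) : RatFunc ℚ :=
  ∑ j ∈ range (n + 1), x ^ (j * (j - 1) / 2) * gauss x n j * gauss x (m + n - j) n

/-- `S_p(m) = ∑_{j=0}^{p-1} [2j+1] q^{-j} D_q(m,j) D_{q⁻¹}(m,j)` -/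
def S (p m : ℕ) : RatFunc ℚ :=
  ∑ j ∈ range p, qint (2 * j + 1) * q ^ (-(j : ℤ)) * delannoy q m j * delannoy q⁻¹ m j

/-- the ring `ℤ[q,q⁻¹]` -/
def Laurent : Subring (RatFunc ℚ) := Subring.closure {q, q⁻¹}

/-- `A ≡ B (mod M)` in `ℤ[q,q⁻¹]`: all of `A`, `B`, `M` lie in `ℤ[q,q⁻¹]` and `M` divides `A - B`
there -/
def Cong (M A B : RatFunc ℚ) : Prop :=
  M ∈ Laurent ∧ A ∈ Laurent ∧ B ∈ Laurent ∧ ∃ G ∈ Laurent, A - B = M * G

theorem gauss_eq (x : RatFunc ℚ) (n k : ℕ) : gauss x n k = V11316.Del.gauss x n k := by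
  have h := Finset.prod_Ico_add' (fun i => (1 - x ^ (n + 1 - i)) / (1 - x ^ i)) 0 k 1
  rw [zero_add] at h
  rw [gauss, V11316.Del.gauss, Finset.range_eq_Ico]
  have h2 : Icc 1 k = Ico 1 (k + 1) := rfl
  rw [h2, ← h]
  refine prod_congr rfl fun i _ => ?_
  rw [Nat.succ_sub_succ]

theorem delannoy_eq (x : RatFunc ℚ) (m n : ℕ) : delannoy x m n = V11316.Del.Dq x m n := by
  rw [delannoy, V11316.Del.Dq]
  refine sum_congr rfl fun j _ => ?_
  rw [gauss_eq, gauss_eq]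

theorem S_eq (p m : ℕ) : S p m = V11316.Del.SS p m := by
  rw [S, V11316.Del.SS]
  refine sum_congr rfl fun j _ => ?_
  rw [V11316.Del.sm, delannoy_eq, delannoy_eq, zpow_neg, zpow_natCast, qint, div_eq_mul_inv]
  rfl

theorem mem_of {x : RatFunc ℚ} (hx : x ∈ V11316.Del.LZ) : x ∈ Laurent := V11316.Del.LZ_closure hx

/-- For every odd prime `p` and every `m`, the congruence modulo `[p]²` in `ℤ[q,q⁻¹]`. -/
theorem result (p : ℕ) (hp : p.Prime) (hodd : Odd p) (m : ℕ) :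
    (p ∣ m → Cong (qint p ^ 2) (S p m) (q * ((1 - q ^ (-(2 * (m : ℤ)))) / (1 - q ^ 2)))) ∧
    (p ∣ m + 1 → Cong (qint p ^ 2) (S p m) (q * ((1 - q ^ (2 * m + 2)) / (1 - q ^ 2)))) ∧
    (¬ p ∣ m * (m + 1) → Cong (qint p ^ 2) (S p m) 0) := by
  have ho : p % 2 = 1 := Nat.odd_iff.1 hodd
  obtain ⟨h1, h2, h3⟩ := V11316.Del.main hp ho m
  have hphi : qint p = V11307.Q.φ (Polynomial.cyclotomic p ℚ) := by
    rw [V11316.Del.phi_prime hp, qint, div_eq_mul_inv]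
    rfl
  have hSm := V11316.Del.SS_LZ p m
  have hM : qint p ^ 2 ∈ Laurent := by
    refine pow_mem (mem_of ?_) 2
    have h := V11316.Del.quo_LZ one_pos p
    rw [one_mul, pow_one] at h
    rw [qint, div_eq_mul_inv]
    exact h
  have hB2 : ∀ k : ℕ, q * ((1 - q ^ (2 * k)) / (1 - q ^ 2)) ∈ V11316.Del.LZ := by
    intro k
    rw [div_eq_mul_inv]
    exact mul_mem V11316.Del.q_LZ (V11316.Del.quo_LZ two_pos k)
  have hB1 : q * ((1 - q ^ (-(2 * (m : ℤ)))) / (1 - q ^ 2)) ∈ V11316.Del.LZ := by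
    have e1 : q * ((1 - q ^ (-(2 * (m : ℤ)))) / (1 - q ^ 2)) =
        -(q ^ (-(2 * (m : ℤ)))) * (q * ((1 - q ^ (2 * m)) / (1 - q ^ 2))) := by
      have e2 : q ^ (-(2 * (m : ℤ))) * q ^ (2 * m) = 1 := by
        rw [← zpow_natCast q (2 * m), ← zpow_add₀ (RatFunc.X_ne_zero)]
        push_cast
        simp
      rw [div_eq_mul_inv, div_eq_mul_inv]
      linear_combination (-(q * (1 - q ^ 2)⁻¹)) * e2
    rw [e1]
    exact mul_mem (neg_mem (V11316.Del.qz_LZ _)) (hB2 m)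
  have key : ∀ B : RatFunc ℚ, B ∈ V11316.Del.LZ → V11307.Q.I p 2 (V11316.Del.SS p m - B) →
      Cong (qint p ^ 2) (S p m) B := by
    intro B hB h
    refine ⟨hM, ?_, mem_of hB, ?_⟩
    · rw [S_eq]; exact mem_of hSm
    · obtain ⟨G, hG, hGe⟩ := V11316.Del.dvd_LZ hp.pos (sub_mem hSm hB) h
      exact ⟨G, mem_of hG, by rw [S_eq, hGe, hphi]⟩
  refine ⟨fun hd => key _ hB1 ?_, fun hd => key _ (hB2 (m + 1)) ?_, fun hd => key _ (zero_mem _) ?_⟩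
  · refine (congrArg (V11307.Q.I p 2) ?_).mp (h1 hd)
    rw [div_eq_mul_inv, ← mul_assoc]
    rfl
  · refine (congrArg (V11307.Q.I p 2) ?_).mp (h2 hd)
    rw [div_eq_mul_inv, ← mul_assoc]
    rfl
  · rw [sub_zero]; exact h3 hd

end

end Pool.Agent.Results.MP_c68aab_nt.DelannoyCongruence
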